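import Pool.Agent.Lib.MP_0b6b0e_gt.ZB.H94.Basic

/-!
Module DV: subgradients, the derivative of a smooth gauge function, smoothness of `p` and the
first order relation.
-/

set_option autoImplicit false

open Set Filter Topology MeasureTheory

open scoped InnerProductSpace

namespace Pool.Agent.Lib.MP_0b6b0e_gt.ZB.H39

section

variable {E : Type*} [NormedAddCommGroup E] [InnerProductSpace ℝ E]

theorem exists_subgradient [FiniteDimensional ℝ E] {P : E → ℝ} (h : IsG P) (x : E) :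
    ∃ l : E →L[ℝ] ℝ, (∀ y, l y ≤ P y) ∧ l x = P x := by
  rcases eq_or_ne x 0 with rfl | hx
  · obtain ⟨g, -, hg⟩ := exists_extension_of_le_sublinear (⊥ : E →ₗ.[ℝ] ℝ) P
      (fun c hc y => h.smul c hc.le y) h.add (fun y => by
        have hy : (y : E) = 0 := (Submodule.mem_bot ℝ).1 y.2
        have : y = 0 := Subtype.ext hy
        rw [this]
        simp [h.zero])
    refine ⟨LinearMap.toContinuousLinearMap g, fun y => hg y, ?_⟩
    simp [h.zero]
  · obtain ⟨g, hg1, hg⟩ := exists_extension_of_le_sublinear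
      (LinearPMap.mkSpanSingleton x (P x) hx) P
      (fun c hc y => h.smul c hc.le y) h.add (fun y => by
        obtain ⟨y, hy⟩ := y
        obtain ⟨c, rfl⟩ := Submodule.mem_span_singleton.1 hy
        have e1 : (LinearPMap.mkSpanSingleton x (P x) hx) ⟨c • x, hy⟩ = c • P x :=
          LinearPMap.mkSpanSingleton'_apply _ _ _ _ _
        refine e1.trans_le ?_
        simp only [smul_eq_mul]
        rcases le_or_gt 0 c with hc | hc
        · rw [h.smul c hc]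
        · exact (mul_nonpos_of_nonpos_of_nonneg hc.le (h.nonneg x)).trans (h.nonneg _))
    refine ⟨LinearMap.toContinuousLinearMap g, fun y => hg y, ?_⟩
    have := hg1 ⟨x, Submodule.mem_span_singleton_self x⟩
    rw [LinearPMap.mkSpanSingleton_apply] at this
    exact this

theorem fderiv_eq {P : E → ℝ} {x : E} (hd : DifferentiableAt ℝ P x) {l : E →L[ℝ] ℝ}
    (hl : ∀ y, l y ≤ P y) (hx : l x = P x) : fderiv ℝ P x = l := by
  have hmin : IsLocalMin (fun y => P y - l y) x :=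
    Filter.Eventually.of_forall fun y => by
      simp only
      rw [hx]
      have := hl y
      linarith
  have h1 := hmin.fderiv_eq_zero
  have h2 : HasFDerivAt (fun y => P y - l y) (fderiv ℝ P x - l) x :=
    hd.hasFDerivAt.sub l.hasFDerivAt
  rw [h2.fderiv] at h1
  exact sub_eq_zero.1 h1

theorem norm_le_of_le {φ : E →L[ℝ] ℝ} {ρ c : ℝ} (hρ : 0 < ρ) (h : ∀ k, ‖k‖ ≤ ρ → φ k ≤ c) :
    ‖φ‖ ≤ c / ρ := by
  have hc : 0 ≤ c := by simpa using h 0 (by simpa using hρ.le)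
  refine φ.opNorm_le_bound (by positivity) fun x => ?_
  rcases eq_or_ne x 0 with rfl | hx
  · simp
  have hx' : 0 < ‖x‖ := norm_pos_iff.2 hx
  have hq : 0 ≤ ρ / ‖x‖ := by positivity
  have h1 := h ((ρ / ‖x‖) • x)
    (by rw [norm_smul, Real.norm_of_nonneg hq, div_mul_cancel₀ _ hx'.ne'])
  have h2 := h ((-(ρ / ‖x‖)) • x)
    (by rw [norm_smul, norm_neg, Real.norm_of_nonneg hq, div_mul_cancel₀ _ hx'.ne'])
  rw [map_smul, smul_eq_mul] at h1 h2
  have h3 : (ρ / ‖x‖) * |φ x| ≤ c := by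
    rcases le_or_gt 0 (φ x) with h0 | h0
    · rwa [abs_of_nonneg h0]
    · rw [abs_of_neg h0]
      linarith
  rw [Real.norm_eq_abs]
  have h4 : |φ x| = ((ρ / ‖x‖) * |φ x|) * (‖x‖ / ρ) := by
    field_simp
  rw [h4]
  calc (ρ / ‖x‖ * |φ x|) * (‖x‖ / ρ) ≤ c * (‖x‖ / ρ) :=
        mul_le_mul_of_nonneg_right h3 (by positivity)
    _ = c / ρ * ‖x‖ := by ring

theorem grad [FiniteDimensional ℝ E] {P : E → ℝ} (h : IsG P) (hs : Smooth P) {x : E}
    (hx : x ≠ 0) : (∀ y, fderiv ℝ P x y ≤ P y) ∧ fderiv ℝ P x x = P x := by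
  obtain ⟨l, hl, hlx⟩ := exists_subgradient h x
  rw [fderiv_eq (hs x hx) hl hlx]
  exact ⟨hl, hlx⟩

theorem continuousAt_fderiv [FiniteDimensional ℝ E] {P : E → ℝ} (h : IsG P) (hs : Smooth P)
    {x : E} (hx : x ≠ 0) : ContinuousAt (fderiv ℝ P) x := by
  obtain ⟨C, hC, hu, -⟩ := h.exists_lipschitz
  have hx' : 0 < ‖x‖ := norm_pos_iff.2 hx
  have hnorm : ∀ y, y ≠ 0 → ‖fderiv ℝ P y‖ ≤ C := by
    intro y hy
    have := norm_le_of_le (φ := fderiv ℝ P y) (ρ := 1) (c := C) one_pos fun k hk =>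
      ((grad h hs hy).1 k).trans ((hu k).trans (by nlinarith))
    simpa using this
  rw [Metric.continuousAt_iff]
  intro ε hε
  have hd := (hs x hx).hasFDerivAt
  rw [hasFDerivAt_iff_isLittleO_nhds_zero, Asymptotics.isLittleO_iff] at hd
  have hd' := hd (show 0 < ε / 4 by positivity)
  rw [Metric.eventually_nhds_iff] at hd'
  obtain ⟨ρ', hρ', hd'⟩ := hd'
  set ρ : ℝ := ρ' / 2 with hρdef
  have hρ : 0 < ρ := by positivity
  have hk : ∀ k : E, ‖k‖ ≤ ρ → P (x + k) - P x - fderiv ℝ P x k ≤ ε / 4 * ρ := by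
    intro k hk
    have h1 := hd' (y := k) (by rw [dist_zero_right]; linarith)
    have h2 : P (x + k) - P x - fderiv ℝ P x k ≤ ε / 4 * ‖k‖ := (le_abs_self _).trans h1
    nlinarith
  refine ⟨min ‖x‖ (ε * ρ / (8 * C)), by positivity, fun y hy => ?_⟩
  rw [dist_eq_norm] at hy
  have hy1 : ‖y - x‖ < ‖x‖ := hy.trans_le (min_le_left _ _)
  have hy2 : ‖y - x‖ < ε * ρ / (8 * C) := hy.trans_le (min_le_right _ _)
  have hy0 : y ≠ 0 := by
    rintro rfl
    rw [zero_sub, norm_neg] at hy1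
    exact lt_irrefl _ hy1
  have hy3 : 2 * C * ‖y - x‖ ≤ ε / 4 * ρ := by
    rw [lt_div_iff₀ (by positivity)] at hy2
    linarith
  rw [dist_eq_norm]
  have hfin : ‖fderiv ℝ P y - fderiv ℝ P x‖ ≤ (ε / 2 * ρ) / ρ := by
    apply norm_le_of_le hρ
    intro k hk'
    have a1 := (grad h hs hy0).1 (x + k)
    have a2 := (grad h hs hy0).2
    have a3 := (grad h hs hx).1 y
    have a4 := (grad h hs hx).2
    have a5 := hk k hk'
    have a6 : (fderiv ℝ P y - fderiv ℝ P x) (y - x) ≤ 2 * C * ‖y - x‖ := by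
      have b1 := ContinuousLinearMap.le_opNorm (fderiv ℝ P y - fderiv ℝ P x) (y - x)
      have b2 : ‖fderiv ℝ P y - fderiv ℝ P x‖ ≤ 2 * C :=
        (norm_sub_le _ _).trans (by linarith [hnorm y hy0, hnorm x hx])
      exact (le_abs_self _).trans (b1.trans (mul_le_mul_of_nonneg_right b2 (norm_nonneg _)))
    simp only [map_add, map_sub, sub_apply] at a1 a6 ⊢
    linarith
  rw [mul_div_assoc, div_self hρ.ne', mul_one] at hfin
  linarith

theorem hasFDerivAt_pw (i : ℕ) {f : E → ℝ} {f' : E →L[ℝ] ℝ} {x : E} (hf : HasFDerivAt f f' x)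
    (h0 : f x ≠ 0) :
    HasFDerivAt (fun y => ((f y)⁻¹) ^ i) ((-(i : ℝ) * ((f x)⁻¹) ^ i * (f x)⁻¹) • f') x := by
  have h1 : HasDerivAt (fun s : ℝ => (s⁻¹) ^ i) (-(i : ℝ) * ((f x)⁻¹) ^ i * (f x)⁻¹) (f x) := by
    have h2 : HasDerivAt (fun s : ℝ => (s⁻¹) ^ i)
        ((i : ℝ) * ((f x)⁻¹) ^ (i - 1) * -((f x) ^ 2)⁻¹) (f x) := (hasDerivAt_inv h0).pow i
    have h3 : (i : ℝ) * ((f x)⁻¹) ^ (i - 1) * -((f x) ^ 2)⁻¹ =
        -(i : ℝ) * ((f x)⁻¹) ^ i * (f x)⁻¹ := by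
      rcases i with _ | i
      · simp
      · simp only [Nat.add_sub_cancel, pow_succ]
        rw [mul_inv, pow_zero, one_mul]
        ring
    rw [← h3]
    exact h2
  exact h1.comp_hasFDerivAt x hf

/-- Squeezing: `g - K ≤ f ≤ g` near `x`, with `K x = 0` and `DK(x) = 0`. -/
theorem hasFDerivAt_of_squeeze {f g K : E → ℝ} {L : E →L[ℝ] ℝ} {x : E}
    (hg : HasFDerivAt g L x) (hK : HasFDerivAt K (0 : E →L[ℝ] ℝ) x) (hK0 : K x = 0)
    (h : ∀ᶠ y in 𝓝 x, 0 ≤ g y - f y ∧ g y - f y ≤ K y) : HasFDerivAt f L x := by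
  have hfx : f x = g x := by
    have := h.self_of_nhds
    rw [hK0] at this
    linarith [this.1, this.2]
  rw [hasFDerivAt_iff_isLittleO] at hg hK ⊢
  have h1 : (fun y => g y - f y) =O[𝓝 x] fun y => K y - K x - (0 : E →L[ℝ] ℝ) (y - x) := by
    apply Asymptotics.IsBigO.of_bound 1
    filter_upwards [h] with y hy
    rw [hK0, Real.norm_eq_abs, Real.norm_eq_abs, abs_of_nonneg hy.1, one_mul]
    simp only [zero_apply, sub_zero]
    exact hy.2.trans (le_abs_self _)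
  have h2 := hg.sub (h1.trans_isLittleO hK)
  refine h2.congr_left fun y => ?_
  rw [hfx]
  ring

theorem smooth_of_chord [FiniteDimensional ℝ E] {i : ℕ} {P p : E → ℝ} (hi : 1 ≤ i) (h : IsG P)
    (hp : IsG p) (hs : Smooth P) (hc : Chord i P p) : Smooth p := by
  intro x hx
  obtain ⟨l, hl, hlx⟩ := exists_subgradient hp x
  obtain ⟨m, hm, hmx⟩ := exists_subgradient hp.rf x
  have hl0 : l x ≠ 0 := by rw [hlx]; exact (hp.pos hx).ne'
  have hm0 : m x ≠ 0 := by rw [hmx]; exact (hp.rf.pos hx).ne'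
  have hlpos : 0 < l x := by rw [hlx]; exact hp.pos hx
  have hmpos : 0 < m x := by rw [hmx]; exact hp.rf.pos hx
  have d1 := hasFDerivAt_pw i (l.hasFDerivAt (x := x)) hl0
  have d2 := hasFDerivAt_pw i (m.hasFDerivAt (x := x)) hm0
  have d3 := hasFDerivAt_pw i (hs x hx).hasFDerivAt (h.pos hx).ne'
  have d4 := hasFDerivAt_pw i (hs.rf x hx).hasFDerivAt (h.rf.pos hx).ne'
  -- `K = H - G`
  have dK := (d1.add d2).sub (d3.add d4)
  have hne : ∀ᶠ y in 𝓝 x, y ≠ 0 := isOpen_ne.mem_nhds hx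
  have hev1 : ∀ᶠ y in 𝓝 x, 0 < l y := l.continuous.continuousAt.eventually (lt_mem_nhds hlpos)
  have hev2 : ∀ᶠ y in 𝓝 x, 0 < m y := m.continuous.continuousAt.eventually (lt_mem_nhds hmpos)
  have key : ∀ᶠ y in 𝓝 x, 0 ≤ ((l y)⁻¹) ^ i - ((p y)⁻¹) ^ i ∧
      ((l y)⁻¹) ^ i - ((p y)⁻¹) ^ i ≤
        ((l y)⁻¹) ^ i + ((m y)⁻¹) ^ i - (((P y)⁻¹) ^ i + ((rf P y)⁻¹) ^ i) := by
    filter_upwards [hne, hev1, hev2] with y hy h1 h2
    have e1 : ((p y)⁻¹) ^ i ≤ ((l y)⁻¹) ^ i :=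
      pow_le_pow_left₀ (inv_nonneg.2 (hp.nonneg y)) (inv_anti₀ h1 (hl y)) i
    have e2 : ((rf p y)⁻¹) ^ i ≤ ((m y)⁻¹) ^ i :=
      pow_le_pow_left₀ (inv_nonneg.2 (hp.rf.nonneg y)) (inv_anti₀ h2 (hm y)) i
    have e3 : ((p y)⁻¹) ^ i + ((rf p y)⁻¹) ^ i = ((P y)⁻¹) ^ i + ((rf P y)⁻¹) ^ i := hc y hy
    constructor
    · linarith
    · linarith
  have hK0 : ((l x)⁻¹) ^ i + ((m x)⁻¹) ^ i - (((P x)⁻¹) ^ i + ((rf P x)⁻¹) ^ i) = 0 := by
    have e3 : ((p x)⁻¹) ^ i + ((rf p x)⁻¹) ^ i = ((P x)⁻¹) ^ i + ((rf P x)⁻¹) ^ i := hc x hx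
    rw [hlx, hmx]
    linarith
  have hmin : IsLocalMin (fun y => ((l y)⁻¹) ^ i + ((m y)⁻¹) ^ i -
      (((P y)⁻¹) ^ i + ((rf P y)⁻¹) ^ i)) x := by
    filter_upwards [key] with y hy
    rw [hK0]
    exact hy.1.trans hy.2
  have hz := hmin.hasFDerivAt_eq_zero dK
  rw [hz] at dK
  have d5 : HasFDerivAt (fun y => ((p y)⁻¹) ^ i) _ x :=
    hasFDerivAt_of_squeeze d1 dK hK0 key
  have d6 : DifferentiableAt ℝ (fun y => ((((p y)⁻¹) ^ i) ^ ((i : ℝ)⁻¹))⁻¹) x := by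
    have hpos : 0 < ((p x)⁻¹) ^ i := pow_pos (inv_pos.2 (hp.pos hx)) i
    exact (d5.differentiableAt.rpow_const (Or.inl hpos.ne')).inv
      (Real.rpow_pos_of_pos hpos _).ne'
  have d7 : (fun y => ((((p y)⁻¹) ^ i) ^ ((i : ℝ)⁻¹))⁻¹) = p := by
    funext y
    rw [Real.pow_rpow_inv_natCast (inv_nonneg.2 (hp.nonneg y)) (by omega), inv_inv]
  rwa [d7] at d6

theorem fderiv_pw (i : ℕ) {P : E → ℝ} (h : IsG P) (hs : Smooth P) {x : E} (hx : x ≠ 0) :
    HasFDerivAt (pw i P) ((-(i : ℝ) * pw i P x * (P x)⁻¹) • fderiv ℝ P x) x :=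
  hasFDerivAt_pw i (hs x hx).hasFDerivAt (h.pos hx).ne'

theorem first_order {i : ℕ} {P p : E → ℝ} (hi : 1 ≤ i) (h : IsG P)
    (hp : IsG p) (hs : Smooth P) (hsp : Smooth p) (hc : Chord i P p) {x : E} (hx : x ≠ 0)
    (v : E) :
    pw i p x * dl p x v + pw i (rf p) x * dl (rf p) x v =
      pw i P x * dl P x v + pw i (rf P) x * dl (rf P) x v := by
  have h1 := (fderiv_pw i hp hsp hx).add (fderiv_pw i hp.rf hsp.rf hx)
  have h2 := (fderiv_pw i h hs hx).add (fderiv_pw i h.rf hs.rf hx)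
  have hev : (pw i p + pw i (rf p)) =ᶠ[𝓝 x] (pw i P + pw i (rf P)) := by
    have hne : ∀ᶠ y in 𝓝 x, y ≠ 0 := isOpen_ne.mem_nhds hx
    filter_upwards [hne] with y hy
    exact (chord_iff i).1 hc y hy
  have h3 := h1.unique (h2.congr_of_eventuallyEq hev)
  have h4 := congrArg (fun φ : E →L[ℝ] ℝ => φ v) h3
  simp only [add_apply, smul_apply, smul_eq_mul] at h4
  have hi0 : (i : ℝ) ≠ 0 := by exact_mod_cast (by omega : i ≠ 0)
  unfold dl
  have h5 : -(i : ℝ) * (pw i p x * ((p x)⁻¹ * fderiv ℝ p x v) +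
      pw i (rf p) x * ((rf p x)⁻¹ * fderiv ℝ (rf p) x v)) =
      -(i : ℝ) * (pw i P x * ((P x)⁻¹ * fderiv ℝ P x v) +
        pw i (rf P) x * ((rf P x)⁻¹ * fderiv ℝ (rf P) x v)) := by
    linarith
  exact mul_left_cancel₀ (neg_ne_zero.2 hi0) h5

end

theorem dv : DVStatement :=
  ⟨fun _ _ h x => exists_subgradient h x,
    fun _ _ h hs _ hx => ⟨(grad h hs hx).1, (grad h hs hx).2, continuousAt_fderiv h hs hx⟩,
    fun _ _ _ _ hi h hp hs hc =>
      ⟨smooth_of_chord hi h hp hs hc, fun _ hx v =>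
        first_order hi h hp hs (smooth_of_chord hi h hp hs hc) hc hx v⟩⟩

end Pool.Agent.Lib.MP_0b6b0e_gt.ZB.H39
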